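import Pool.Agent.R267.Lorentz

set_option autoImplicit false

open Filter Topology
open scoped ENNReal

namespace Pool.Agent.Results.MP_c77635_an.NoLorentzSqueeze

section defs

/-- the space `ℓ₂` -/
abbrev l2 (𝕜 : Type) [RCLike 𝕜] : Type := lp (fun _ : ℕ => 𝕜) 2

variable {𝕜 : Type} [RCLike 𝕜]

/-- bounded Markushevich basis of `ℓ₂` with bounded coordinate functionals -/
def IsBasis (x : ℕ → l2 𝕜) (xs : ℕ → l2 𝕜 →L[𝕜] 𝕜) : Prop :=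
  (∀ f : l2 𝕜, f ∈ closure ((Submodule.span 𝕜 (Set.range x) : Submodule 𝕜 (l2 𝕜)) :
    Set (l2 𝕜))) ∧
  (∀ m n : ℕ, xs m (x n) = if m = n then 1 else 0) ∧
  (∀ f : l2 𝕜, (∀ n, xs n f = 0) → f = 0) ∧
  ∃ M : ℝ, ∀ n, ‖x n‖ ≤ M ∧ ‖xs n‖ ≤ M

variable (𝕜) in
/-- the norms of the constant coefficient vectors with at most `m` terms -/
def phiSet {E : Type} [NormedAddCommGroup E] [NormedSpace 𝕜 E] (x : ℕ → E) (m : ℕ) : Set ℝ :=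
  {r | ∃ (A : Finset ℕ) (ε : ℕ → 𝕜), A.card ≤ m ∧ (∀ n ∈ A, ‖ε n‖ = 1) ∧
    r = ‖∑ n ∈ A, ε n • x n‖}

variable (𝕜) in
/-- the fundamental function -/
noncomputable def phi {E : Type} [NormedAddCommGroup E] [NormedSpace 𝕜 E] (x : ℕ → E)
    (m : ℕ) : ℝ := sSup (phiSet 𝕜 x m)

/-- bidemocracy (the two fundamental functions being finite) -/
def Bidemocratic (x : ℕ → l2 𝕜) (xs : ℕ → l2 𝕜 →L[𝕜] 𝕜) : Prop :=
  (∀ m, BddAbove (phiSet 𝕜 x m)) ∧ (∀ m, BddAbove (phiSet 𝕜 xs m)) ∧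
    ∃ C : ℝ, ∀ m : ℕ, 1 ≤ m → phi 𝕜 x m * phi 𝕜 xs m / m ≤ C

/-- the non-increasing rearrangement of `|a|`, indexed from `0` -/
noncomputable def rearrangement (a : ℕ → 𝕜) (n : ℕ) : ℝ :=
  sInf {t : ℝ | 0 ≤ t ∧ {k | t < ‖a k‖}.encard ≤ n}

/-- the Lorentz quasi-norm `‖·‖_{2,q}` (of finitely supported sequences) -/
noncomputable def lorentz (q : ℝ) (a : ℕ → 𝕜) : ℝ :=
  (∑' n : ℕ, rearrangement a n ^ q * ((n : ℝ) + 1) ^ (q / 2 - 1)) ^ (1 / q)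

/-- the embedding of `ℓ_{2,q}` into `ℓ₂` induced by `x` -/
def EmbedsLorentz (q : ℝ) (x : ℕ → l2 𝕜) : Prop :=
  ∃ C : ℝ, ∀ a : ℕ →₀ 𝕜, ‖a.sum fun n r => r • x n‖ ≤ C * lorentz q a

end defs

open Pool.Agent.R267 Pool.Agent.R267.LZ

/-- transfer of the example from a Hilbert space to `ℓ₂` -/
theorem transfer {𝕜 : Type} [RCLike 𝕜] {H : Type} [NormedAddCommGroup H] [InnerProductSpace 𝕜 H]
    [CompleteSpace H] (b : ℕ → H) (f : ℕ → H →ₗ[𝕜] 𝕜)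
    (hbi : ∀ m n, f m (b n) = if m = n then 1 else 0)
    (hd : ∀ v : H, v ∈ closure ((Submodule.span 𝕜 (Set.range b) : Submodule 𝕜 H) : Set H))
    (ht : ∀ v : H, (∀ n, f n v = 0) → v = 0)
    (hf : ∀ n v, ‖f n v‖ ≤ 1 * ‖v‖) (hb : ∀ n, ‖b n‖ ≤ Real.sqrt 5)
    (hup : ∀ (A : Finset ℕ) (ε : ℕ → 𝕜), (∀ n ∈ A, ‖ε n‖ = 1) →
      ‖∑ n ∈ A, ε n • b n‖ ≤ Real.sqrt (5 * A.card))
    (hdual : ∀ (A : Finset ℕ) (ε : ℕ → 𝕜), (∀ n ∈ A, ‖ε n‖ = 1) → ∀ v : H,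
      ‖∑ n ∈ A, ε n * f n v‖ ≤ Real.sqrt A.card * ‖v‖)
    (hfail : ∀ q : ℝ, 1 < q → ∀ C : ℝ, ∃ a : ℕ →₀ 𝕜,
      C * lorentz q a < ‖a.sum fun n r => r • b n‖) :
    ∃ (x : ℕ → l2 𝕜) (xs : ℕ → l2 𝕜 →L[𝕜] 𝕜), IsBasis x xs ∧ Bidemocratic x xs ∧
      ∀ q : ℝ, 1 < q → ¬ EmbedsLorentz q x := by
  obtain ⟨Φ⟩ := HI.exists_iso (𝕜 := 𝕜) b (HI.linearIndependent_of_biorth b f hbi) hd
  set bfL : ℕ → H →L[𝕜] 𝕜 := fun n => (f n).mkContinuous 1 (hf n) with hbfL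
  set x : ℕ → l2 𝕜 := fun n => Φ (b n) with hx
  set xs : ℕ → l2 𝕜 →L[𝕜] 𝕜 := fun n => (bfL n).comp Φ.symm.toLinearIsometry.toContinuousLinearMap
    with hxs
  have hxsa : ∀ n v, xs n v = f n (Φ.symm v) := fun n v => rfl
  have hsumx : ∀ (A : Finset ℕ) (r : ℕ → 𝕜), ‖∑ n ∈ A, r n • x n‖ =
      ‖∑ n ∈ A, r n • b n‖ := by
    intro A r
    rw [← Φ.norm_map (∑ n ∈ A, r n • b n), map_sum]
    simp only [map_smul, hx]
  have hphi : ∀ m : ℕ, ∀ r ∈ phiSet 𝕜 x m, r ≤ Real.sqrt (5 * m) := by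
    rintro m r ⟨A, ε, hA, hε, rfl⟩
    rw [hsumx]
    refine (hup A ε hε).trans (Real.sqrt_le_sqrt ?_)
    have : (A.card : ℝ) ≤ m := by exact_mod_cast hA
    linarith
  have hphis : ∀ m : ℕ, ∀ r ∈ phiSet 𝕜 xs m, r ≤ Real.sqrt m := by
    rintro m r ⟨A, ε, hA, hε, rfl⟩
    have h1 : ‖∑ n ∈ A, ε n • xs n‖ ≤ Real.sqrt A.card := by
      apply ContinuousLinearMap.opNorm_le_bound _ (Real.sqrt_nonneg _)
      intro v
      have h2 := hdual A ε hε (Φ.symm v)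
      rw [Φ.symm.norm_map] at h2
      rw [sum_apply]
      exact h2
    refine h1.trans (Real.sqrt_le_sqrt ?_)
    exact_mod_cast hA
  have hnex : ∀ m, (phiSet 𝕜 x m).Nonempty := fun m => ⟨_, ∅, fun _ => 1, by simp, by simp, rfl⟩
  have hnexs : ∀ m, (phiSet 𝕜 xs m).Nonempty := fun m => ⟨_, ∅, fun _ => 1, by simp, by simp, rfl⟩
  refine ⟨x, xs, ⟨?_, ?_, ?_, Real.sqrt 5, fun n => ⟨?_, ?_⟩⟩,
    ⟨fun m => ⟨_, hphi m⟩, fun m => ⟨_, hphis m⟩, Real.sqrt 5, fun m hm => ?_⟩, ?_⟩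
  · intro v
    rw [Metric.mem_closure_iff]
    intro ε hε
    obtain ⟨g, hg, hgf⟩ := Metric.mem_closure_iff.mp (hd (Φ.symm v)) ε hε
    refine ⟨Φ g, ?_, ?_⟩
    · have h1 : Φ g ∈ Submodule.map (Φ.toLinearEquiv.toLinearMap)
          (Submodule.span 𝕜 (Set.range b)) := ⟨g, hg, rfl⟩
      rw [Submodule.map_span, ← Set.range_comp] at h1
      exact h1
    · rwa [← Φ.symm.dist_map, Φ.symm_apply_apply]
  · intro m n
    rw [hxsa, hx]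
    simp only [Φ.symm_apply_apply]
    exact hbi m n
  · intro v hv
    have h1 : Φ.symm v = 0 := ht _ (fun n => by rw [← hxsa]; exact hv n)
    exact (map_eq_zero_iff _ Φ.symm.injective).mp h1
  · rw [hx]
    simp only [Φ.norm_map]
    exact hb n
  · have h1 : ‖xs n‖ ≤ 1 := by
      apply ContinuousLinearMap.opNorm_le_bound _ zero_le_one
      intro v
      rw [hxsa]
      have := hf n (Φ.symm v)
      rwa [Φ.symm.norm_map] at this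
    refine h1.trans ?_
    rw [show (1 : ℝ) = Real.sqrt 1 by simp]
    exact Real.sqrt_le_sqrt (by norm_num)
  · have hm0 : (0 : ℝ) < m := by exact_mod_cast hm
    have h1 : phi 𝕜 x m ≤ Real.sqrt (5 * m) := csSup_le (hnex m) (hphi m)
    have h2 : phi 𝕜 xs m ≤ Real.sqrt m := csSup_le (hnexs m) (hphis m)
    have h3 : 0 ≤ phi 𝕜 xs m := by
      apply le_csSup ⟨_, hphis m⟩
      exact ⟨∅, fun _ => 1, by simp, by simp, by simp⟩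
    rw [div_le_iff₀ hm0]
    calc phi 𝕜 x m * phi 𝕜 xs m ≤ Real.sqrt (5 * m) * Real.sqrt m :=
          mul_le_mul h1 h2 h3 (Real.sqrt_nonneg _)
      _ = Real.sqrt 5 * m := by
          rw [Real.sqrt_mul (by norm_num), mul_assoc, Real.mul_self_sqrt hm0.le]
  · rintro q hq ⟨C, hC⟩
    obtain ⟨a, ha⟩ := hfail q hq C
    have h1 := hC a
    have h2 : ‖a.sum fun n r => r • x n‖ = ‖a.sum fun n r => r • b n‖ := hsumx a.support a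
    rw [h2] at h1
    linarith

/-- Over both scalar fields there is a bidemocratic basis of `ℓ₂` for which the embedding of
`ℓ_{2,q}` into `ℓ₂` fails for every `q > 1`. -/
theorem result : ∀ (𝕜 : Type) [RCLike 𝕜],
    ∃ (x : ℕ → l2 𝕜) (xs : ℕ → l2 𝕜 →L[𝕜] 𝕜), IsBasis x xs ∧ Bidemocratic x xs ∧
      ∀ q : ℝ, 1 < q → ¬ EmbedsLorentz q x := by
  intro 𝕜 _
  have hc : ∀ c, CompleteSpace (VV 𝕜 c) := fun c => complete_VV c
  refine transfer (𝕜 := 𝕜) (H := XX 𝕜) (bx 𝕜) (bf 𝕜) ?_ ?_ ?_ ?_ ?_ ?_ ?_ ?_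
  · exact fun m n => bf_bx (𝕜 := 𝕜) m n
  · exact fun v => dense_bx (𝕜 := 𝕜) v
  · exact fun v => total (𝕜 := 𝕜) v
  · exact fun n v => norm_bf_le (𝕜 := 𝕜) n v
  · exact fun n => norm_bx_le (𝕜 := 𝕜) n
  · exact fun A ε => upper (𝕜 := 𝕜) A ε
  · exact fun A ε => upper_dual (𝕜 := 𝕜) A ε
  intro q hq C
  obtain ⟨c, hc⟩ := fails (𝕜 := 𝕜) q hq C
  refine ⟨Finsupp.onFinset (blk c) (coef c) coef_supp, ?_⟩
  have h2 : ((Finsupp.onFinset (blk c) (coef c) coef_supp : ℕ →₀ 𝕜).sum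
      fun n r => r • bx 𝕜 n) = ∑ n ∈ blk c, (coef c n : 𝕜) • bx 𝕜 n :=
    Finsupp.onFinset_sum _ (fun n => zero_smul _ _)
  rw [h2]
  exact hc

end Pool.Agent.Results.MP_c77635_an.NoLorentzSqueeze
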